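import Mathlib
import Pool.Agent.Helper21.SR.St

/-! Module FOU of project SR (helper21), by helper54. -/

namespace Pool.Agent.Helper54.SR

open MeasureTheory Set Pool.Agent.Helper21.SR
open scoped Finset

/-- `F / w^2` is integrable with integral `J * I`. -/
private def HI (J : ℝ) (F : ℝ → ℝ) (I : ℝ) : Prop :=
  IntegrableOn (fun w : ℝ => F w / w ^ 2) (Ioi 0) ∧ ∫ w in Ioi (0 : ℝ), F w / w ^ 2 = J * I

private lemma HI.sum {J : ℝ} {ι : Type*} (S : Finset ι) (F : ι → ℝ → ℝ) (I : ι → ℝ)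
    (h : ∀ i ∈ S, HI J (F i) (I i)) : HI J (fun w => ∑ i ∈ S, F i w) (∑ i ∈ S, I i) := by
  have e : (fun w : ℝ => (∑ i ∈ S, F i w) / w ^ 2) = fun w => ∑ i ∈ S, F i w / w ^ 2 := by
    funext w; rw [Finset.sum_div]
  constructor
  · show IntegrableOn (fun w : ℝ => (∑ i ∈ S, F i w) / w ^ 2) (Ioi 0)
    rw [e]
    exact integrable_finsetSum S fun i hi => (h i hi).1
  · show ∫ w in Ioi (0 : ℝ), (∑ i ∈ S, F i w) / w ^ 2 = _
    rw [e, integral_finsetSum S fun i hi => (h i hi).1, Finset.mul_sum]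
    exact Finset.sum_congr rfl fun i hi => (h i hi).2

private lemma HI.mul {J : ℝ} {F : ℝ → ℝ} {I : ℝ} (c : ℝ) (h : HI J F I) :
    HI J (fun w => c * F w) (c * I) := by
  have e : (fun w : ℝ => c * F w / w ^ 2) = fun w => c * (F w / w ^ 2) := by
    funext w; ring
  constructor
  · show IntegrableOn (fun w : ℝ => c * F w / w ^ 2) (Ioi 0)
    rw [e]
    exact h.1.const_mul c
  · show ∫ w in Ioi (0 : ℝ), c * F w / w ^ 2 = _
    rw [e, integral_const_mul, h.2]; ring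

private lemma HI.div {J : ℝ} {F : ℝ → ℝ} {I : ℝ} (c : ℝ) (h : HI J F I) :
    HI J (fun w => F w / c) (I / c) := by
  have := h.mul c⁻¹
  simpa [div_eq_inv_mul] using this

private lemma HI.add {J : ℝ} {F G : ℝ → ℝ} {I K : ℝ} (h : HI J F I) (h' : HI J G K) :
    HI J (fun w => F w + G w) (I + K) := by
  have e : (fun w : ℝ => (F w + G w) / w ^ 2) = fun w => F w / w ^ 2 + G w / w ^ 2 := by
    funext w; ring
  constructor
  · show IntegrableOn (fun w : ℝ => (F w + G w) / w ^ 2) (Ioi 0)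
    rw [e]
    exact h.1.add h'.1
  · show ∫ w in Ioi (0 : ℝ), (F w + G w) / w ^ 2 = _
    rw [e, integral_add h.1 h'.1, h.2, h'.2]; ring

private lemma sin_zero {L : Type} (A : Finset ℕ) (p : ℕ → L → ℝ) (h : ℕ → ℝ) (w : ℝ) (l : L) :
    ∑ x ∈ A, ∑ y ∈ A, p x l * p y l * Real.sin (w * (h x - h y)) = 0 := by
  have e : ∑ x ∈ A, ∑ y ∈ A, p x l * p y l * Real.sin (w * (h x - h y)) =
      -∑ x ∈ A, ∑ y ∈ A, p x l * p y l * Real.sin (w * (h x - h y)) := by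
    conv_lhs => rw [Finset.sum_comm]
    rw [← Finset.sum_neg_distrib]
    refine Finset.sum_congr rfl fun x _ => ?_
    rw [← Finset.sum_neg_distrib]
    refine Finset.sum_congr rfl fun y _ => ?_
    rw [show w * (h y - h x) = -(w * (h x - h y)) by ring, Real.sin_neg]
    ring
  linarith

private lemma pp_sum {L : Type} (A : Finset ℕ) (p : ℕ → L → ℝ) (l : L) :
    ∑ x ∈ A, ∑ y ∈ A, p x l * p y l = (∑ x ∈ A, p x l) * ∑ x ∈ A, p x l := by
  rw [Finset.sum_mul_sum]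

private lemma one_sub_Ac {L : Type} (A : Finset ℕ) (S : Finset L) (p : ℕ → L → ℝ) (h : ℕ → ℝ)
    (w : ℝ) (hA : A.Nonempty) (h1 : ∀ x ∈ A, ∑ l ∈ S, p x l = 1) :
    1 - Ac A S p h w = (1 / (#A : ℝ)) * ∑ l ∈ S, (∑ x ∈ A, ∑ y ∈ A,
      p x l * p y l * (1 - Real.cos (w * (h x - h y)))) / (∑ x ∈ A, p x l) := by
  have hn : (#A : ℝ) ≠ 0 := by exact_mod_cast hA.card_pos.ne'
  have e1 : ∑ l ∈ S, ∑ x ∈ A, p x l = (#A : ℝ) := by
    rw [Finset.sum_comm, Finset.sum_congr rfl h1]; simp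
  have e2 : ∀ l ∈ S, (∑ x ∈ A, ∑ y ∈ A,
      p x l * p y l * (1 - Real.cos (w * (h x - h y)))) / (∑ x ∈ A, p x l) =
      (∑ x ∈ A, p x l) - (∑ x ∈ A, ∑ y ∈ A,
      p x l * p y l * Real.cos (w * (h x - h y))) / (∑ x ∈ A, p x l) := by
    intro l _
    have : ∑ x ∈ A, ∑ y ∈ A, p x l * p y l * (1 - Real.cos (w * (h x - h y))) =
        (∑ x ∈ A, p x l) * (∑ x ∈ A, p x l) -
          ∑ x ∈ A, ∑ y ∈ A, p x l * p y l * Real.cos (w * (h x - h y)) := by
      rw [← pp_sum, ← Finset.sum_sub_distrib]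
      refine Finset.sum_congr rfl fun x _ => ?_
      rw [← Finset.sum_sub_distrib]
      exact Finset.sum_congr rfl fun y _ => by ring
    rw [this, sub_div, mul_self_div_self]
  rw [Finset.sum_congr rfl e2, Finset.sum_sub_distrib, e1]
  unfold Ac
  rw [mul_sub, one_div, inv_mul_cancel₀ hn]

private lemma one_sub_AcAc {L1 L2 : Type} (A : Finset ℕ) (S1 : Finset L1) (S2 : Finset L2)
    (p : ℕ → L1 → ℝ) (q : ℕ → L2 → ℝ) (h : ℕ → ℝ)
    (w : ℝ) (hA : A.Nonempty) (h1 : ∀ x ∈ A, ∑ l ∈ S1, p x l = 1)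
    (h2 : ∀ x ∈ A, ∑ l ∈ S2, q x l = 1) :
    1 - Ac A S1 p h w * Ac A S2 q h w =
      (1 / (#A : ℝ) ^ 2) * ∑ l ∈ S1, ∑ m ∈ S2, (∑ x ∈ A, ∑ y ∈ A, ∑ x' ∈ A, ∑ y' ∈ A,
        p x l * p y l * (q x' m * q y' m) * (1 - Real.cos (w * ((h x - h x') - (h y - h y'))))) /
          ((∑ x ∈ A, p x l) * (∑ x' ∈ A, q x' m)) := by
  have hn : (#A : ℝ) ≠ 0 := by exact_mod_cast hA.card_pos.ne'
  have e1 : ∑ l ∈ S1, ∑ x ∈ A, p x l = (#A : ℝ) := by
    rw [Finset.sum_comm, Finset.sum_congr rfl h1]; simp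
  have e1' : ∑ l ∈ S2, ∑ x ∈ A, q x l = (#A : ℝ) := by
    rw [Finset.sum_comm, Finset.sum_congr rfl h2]; simp
  have e2 : ∀ l ∈ S1, ∀ m ∈ S2, (∑ x ∈ A, ∑ y ∈ A, ∑ x' ∈ A, ∑ y' ∈ A,
        p x l * p y l * (q x' m * q y' m) * (1 - Real.cos (w * ((h x - h x') - (h y - h y'))))) /
          ((∑ x ∈ A, p x l) * (∑ x' ∈ A, q x' m)) =
      (∑ x ∈ A, p x l) * (∑ x ∈ A, q x m) -
      ((∑ x ∈ A, ∑ y ∈ A, p x l * p y l * Real.cos (w * (h x - h y))) / (∑ x ∈ A, p x l)) *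
      ((∑ x ∈ A, ∑ y ∈ A, q x m * q y m * Real.cos (w * (h x - h y))) / (∑ x ∈ A, q x m)) := by
    intro l _ m _
    have key : ∑ x ∈ A, ∑ y ∈ A, ∑ x' ∈ A, ∑ y' ∈ A,
        p x l * p y l * (q x' m * q y' m) * (1 - Real.cos (w * ((h x - h x') - (h y - h y')))) =
        ((∑ x ∈ A, p x l) * (∑ x ∈ A, p x l)) * ((∑ x ∈ A, q x m) * (∑ x ∈ A, q x m)) -
        (∑ x ∈ A, ∑ y ∈ A, p x l * p y l * Real.cos (w * (h x - h y))) *
          (∑ x ∈ A, ∑ y ∈ A, q x m * q y m * Real.cos (w * (h x - h y))) -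
        (∑ x ∈ A, ∑ y ∈ A, p x l * p y l * Real.sin (w * (h x - h y))) *
          (∑ x ∈ A, ∑ y ∈ A, q x m * q y m * Real.sin (w * (h x - h y))) := by
      rw [← pp_sum, ← pp_sum, Finset.sum_mul, Finset.sum_mul, Finset.sum_mul,
        ← Finset.sum_sub_distrib, ← Finset.sum_sub_distrib]
      refine Finset.sum_congr rfl fun x _ => ?_
      rw [Finset.sum_mul, Finset.sum_mul, Finset.sum_mul,
        ← Finset.sum_sub_distrib, ← Finset.sum_sub_distrib]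
      refine Finset.sum_congr rfl fun y _ => ?_
      rw [Finset.mul_sum, Finset.mul_sum, Finset.mul_sum,
        ← Finset.sum_sub_distrib, ← Finset.sum_sub_distrib]
      refine Finset.sum_congr rfl fun x' _ => ?_
      rw [Finset.mul_sum, Finset.mul_sum, Finset.mul_sum,
        ← Finset.sum_sub_distrib, ← Finset.sum_sub_distrib]
      refine Finset.sum_congr rfl fun y' _ => ?_
      rw [show w * ((h x - h x') - (h y - h y')) = w * (h x - h y) - w * (h x' - h y') by ring,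
        Real.cos_sub]
      ring
    rw [key, sin_zero, zero_mul, sub_zero, sub_div, div_mul_div_comm]
    congr 1
    rw [show ((∑ x ∈ A, p x l) * (∑ x ∈ A, p x l)) * ((∑ x ∈ A, q x m) * (∑ x ∈ A, q x m)) =
      ((∑ x ∈ A, p x l) * (∑ x ∈ A, q x m)) * ((∑ x ∈ A, p x l) * (∑ x ∈ A, q x m)) by ring,
      mul_self_div_self]
  rw [Finset.sum_congr rfl fun l hl => Finset.sum_congr rfl fun m hm => e2 l hl m hm]
  simp only [Finset.sum_sub_distrib]
  rw [← Finset.sum_mul_sum, ← Finset.sum_mul_sum, e1, e1']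
  unfold Ac
  field_simp

theorem hFou : StFou := by
  intro J L1 L2 A S1 S2 p q h hJ hu hA hp hq hp1 hq1
  have hn : (#A : ℝ) ≠ 0 := by exact_mod_cast hA.card_pos.ne'
  have base : ∀ u : ℝ, HI J (fun w => 1 - Real.cos (w * u)) |u| := hu
  have hE1 : ∀ (L : Type) (S : Finset L) (r : ℕ → L → ℝ), (∀ x ∈ A, ∑ l ∈ S, r x l = 1) →
      HI J (fun w => 1 - Ac A S r h w) (1 / (#A : ℝ) * E1 A S r h) := by
    intro L S r hr
    have e : (fun w => 1 - Ac A S r h w) = fun w => (1 / (#A : ℝ)) * ∑ l ∈ S, (∑ x ∈ A, ∑ y ∈ A,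
      r x l * r y l * (1 - Real.cos (w * (h x - h y)))) / (∑ x ∈ A, r x l) := by
      funext w; exact one_sub_Ac A S r h w hA hr
    rw [e]
    unfold E1
    refine HI.mul _ (HI.sum S _ _ fun l _ => HI.div _ (HI.sum A _ _ fun x _ => HI.sum A _ _ fun y _ => ?_))
    exact HI.mul _ (base _)
  have hP : HI J (fun w => 1 - Pc A h w) (1 / (#A : ℝ) ^ 2 * E0 A h) := by
    have e : (fun w => 1 - Pc A h w) = fun w => (1 / (#A : ℝ) ^ 2) * ∑ x ∈ A, ∑ y ∈ A,
      (1 - Real.cos (w * (h x - h y))) := by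
      funext w
      simp only [Finset.sum_sub_distrib]
      unfold Pc
      simp only [Finset.sum_const, nsmul_eq_mul, mul_one]
      field_simp
    rw [e]
    unfold E0
    exact HI.mul _ (HI.sum A _ _ fun x _ => HI.sum A _ _ fun y _ => base _)
  have hE2 : HI J (fun w => 1 - Ac A S1 p h w * Ac A S2 q h w)
      (1 / (#A : ℝ) ^ 2 * E2 A S1 S2 p q h) := by
    have e : (fun w => 1 - Ac A S1 p h w * Ac A S2 q h w) = fun w => _ :=
      funext fun w => one_sub_AcAc A S1 S2 p q h w hA hp1 hq1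
    rw [e]
    unfold E2
    refine HI.mul _ (HI.sum S1 _ _ fun l _ => HI.sum S2 _ _ fun m _ => HI.div _
      (HI.sum A _ _ fun x _ => HI.sum A _ _ fun y _ => HI.sum A _ _ fun x' _ => HI.sum A _ _ fun y' _ => ?_))
    exact HI.mul _ (base _)
  have hall := ((hE1 L1 S1 p hp1).add (hE1 L2 S2 q hq1)).add hE2
  have e3 : (fun w => 1 - Ac A S1 p h w + (1 - Ac A S2 q h w) + (1 - Ac A S1 p h w * Ac A S2 q h w)) =
      fun w => 3 - Ac A S1 p h w - Ac A S2 q h w - Ac A S1 p h w * Ac A S2 q h w := by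
    funext w; ring
  rw [e3] at hall
  refine ⟨hP.1, ?_, hall.1, ?_⟩
  · rw [hP.2]; ring
  · rw [hall.2]; field_simp

end Pool.Agent.Helper54.SR
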