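import Mathlib
import Pool.Agent.Helper21.SR.St

/-! Module TT1 of project SR (helper21), by helper54. -/

namespace Pool.Agent.Helper54.SR

open Finset Pool.Agent.Helper21.SR

section walk

variable {A : Finset ℕ}

private lemma wk_nonneg (x y : ℕ) : 0 ≤ wk A x y := by
  unfold wk
  refine mul_nonneg (by positivity) (sum_nonneg fun s _ => sum_nonneg fun t _ => ?_)
  split_ifs <;> positivity

private lemma wk_symm (x y : ℕ) : wk A x y = wk A y x := by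
  unfold wk
  congr 1
  rw [sum_comm]
  refine sum_congr rfl fun t _ => sum_congr rfl fun s _ => ?_
  by_cases h : x * s = y * t
  · rw [if_pos h, if_pos h.symm, h]
  · rw [if_neg h, if_neg fun e => h e.symm]

/-- fibre average of the function `F` of the first coordinate -/
private noncomputable def HH (A : Finset ℕ) (F : ℕ → ℝ) (z : ℕ) : ℝ :=
  (∑ y ∈ A, ∑ t ∈ A, if z = y * t then F y else 0) / (fr A z : ℝ)

private lemma fr_eq (z : ℕ) : (fr A z : ℝ) = ∑ y ∈ A, ∑ t ∈ A, if z = y * t then (1 : ℝ) else 0 := by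
  unfold fr
  rw [← sum_product', card_filter]
  push_cast
  exact sum_congr rfl fun p _ => by simp only [eq_comm]

private lemma fr_pos {x s : ℕ} (hx : x ∈ A) (hs : s ∈ A) : 0 < (fr A (x * s) : ℝ) := by
  unfold fr
  exact_mod_cast card_pos.2 ⟨(x, s), by simp [hx, hs]⟩

private lemma wk_F (hA : A.Nonempty) (F : ℕ → ℝ) (x : ℕ) :
    (#A : ℝ) * ∑ y ∈ A, wk A x y * F y = ∑ s ∈ A, HH A F (x * s) := by
  have hn : (#A : ℝ) ≠ 0 := by exact_mod_cast hA.card_pos.ne'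
  unfold wk HH
  rw [mul_sum]
  have e : ∀ y ∈ A, (#A : ℝ) * (1 / (#A : ℝ) * (∑ s ∈ A, ∑ t ∈ A,
      if x * s = y * t then 1 / (fr A (x * s) : ℝ) else 0) * F y) =
      ∑ s ∈ A, ∑ t ∈ A, (if x * s = y * t then F y else 0) / (fr A (x * s) : ℝ) := by
    intro y _
    rw [← mul_assoc, ← mul_assoc, mul_one_div_cancel hn, one_mul, sum_mul]
    refine sum_congr rfl fun s _ => ?_
    rw [sum_mul]
    refine sum_congr rfl fun t _ => ?_
    split_ifs
    · ring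
    · simp
  rw [sum_congr rfl e, sum_comm]
  refine sum_congr rfl fun s _ => ?_
  rw [sum_div]
  refine sum_congr rfl fun y _ => ?_
  rw [sum_div]

private lemma wk_row (hA : A.Nonempty) {x : ℕ} (hx : x ∈ A) : ∑ y ∈ A, wk A x y = 1 := by
  have hn : (#A : ℝ) ≠ 0 := by exact_mod_cast hA.card_pos.ne'
  have h := wk_F hA (fun _ => 1) x
  have e : ∀ s ∈ A, HH A (fun _ => 1) (x * s) = 1 := by
    intro s hs
    unfold HH
    rw [← fr_eq]
    exact div_self (fr_pos hx hs).ne'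
  rw [sum_congr rfl e] at h
  simp only [mul_one, sum_const, nsmul_eq_mul] at h
  exact mul_left_cancel₀ hn (by linarith)

private lemma wk_col (hA : A.Nonempty) {y : ℕ} (hy : y ∈ A) : ∑ x ∈ A, wk A x y = 1 := by
  rw [← wk_row hA hy]
  exact sum_congr rfl fun x _ => wk_symm x y

/-- the fibre average is a projection -/
private lemma proj (F : ℕ → ℝ) :
    ∑ x ∈ A, ∑ s ∈ A, F x * HH A F (x * s) = ∑ x ∈ A, ∑ s ∈ A, HH A F (x * s) ^ 2 := by
  rw [← sum_product', ← sum_product']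
  rw [← sum_fiberwise_of_maps_to (s := A ×ˢ A) (t := (A ×ˢ A).image (fun i => i.1 * i.2))
    (g := fun i => i.1 * i.2) (fun i hi => mem_image_of_mem _ hi)
    (fun i : ℕ × ℕ => F i.1 * HH A F (i.1 * i.2))]
  rw [← sum_fiberwise_of_maps_to (s := A ×ˢ A) (t := (A ×ˢ A).image (fun i => i.1 * i.2))
    (g := fun i => i.1 * i.2) (fun i hi => mem_image_of_mem _ hi)
    (fun i : ℕ × ℕ => HH A F (i.1 * i.2) ^ 2)]
  refine sum_congr rfl fun z hz => ?_
  have e1 : ∑ i ∈ A ×ˢ A with i.1 * i.2 = z, F i.1 * HH A F (i.1 * i.2) =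
      (∑ i ∈ A ×ˢ A with i.1 * i.2 = z, F i.1) * HH A F z := by
    rw [sum_mul]
    refine sum_congr rfl fun i hi => ?_
    rw [(mem_filter.1 hi).2]
  have e2 : ∑ i ∈ A ×ˢ A with i.1 * i.2 = z, HH A F (i.1 * i.2) ^ 2 =
      (fr A z : ℝ) * HH A F z ^ 2 := by
    rw [sum_congr rfl (g := fun _ => HH A F z ^ 2) fun i hi => by rw [(mem_filter.1 hi).2], sum_const,
      nsmul_eq_mul]
    rfl
  have e3 : ∑ i ∈ A ×ˢ A with i.1 * i.2 = z, F i.1 =
      ∑ y ∈ A, ∑ t ∈ A, if z = y * t then F y else 0 := by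
    rw [← sum_product', sum_filter]
    exact sum_congr rfl fun p _ => by simp only [eq_comm]
  have hz' : (fr A z : ℝ) ≠ 0 := by
    obtain ⟨i, hi, rfl⟩ := mem_image.1 hz
    exact (fr_pos (mem_product.1 hi).1 (mem_product.1 hi).2).ne'
  rw [e1, e2, e3, sq, ← mul_assoc]
  congr 1
  unfold HH
  rw [mul_div_cancel₀ _ hz']

/-- Claim 1. -/
private lemma claim1 (hA : A.Nonempty) (F : ℕ → ℝ) (hF : ∑ x ∈ A, F x = 0) :
    0 ≤ ∑ x ∈ A, ∑ y ∈ A, wk A x y * F x * F y ∧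
      2 * ∑ x ∈ A, (∑ y ∈ A, wk A x y * F y) ^ 2 ≤ ∑ x ∈ A, ∑ y ∈ A, wk A x y * F x * F y := by
  have hn : 0 < (#A : ℝ) := by exact_mod_cast hA.card_pos
  set K : ℕ → ℝ := fun x => ∑ y ∈ A, wk A x y * F y with hK
  have hb : ∑ x ∈ A, ∑ y ∈ A, wk A x y * F x * F y = ∑ x ∈ A, F x * K x := by
    refine sum_congr rfl fun x _ => ?_
    rw [hK, mul_sum]
    exact sum_congr rfl fun y _ => by ring
  have hKH : ∀ x, (#A : ℝ) * K x = ∑ s ∈ A, HH A F (x * s) := fun x => wk_F hA F x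
  have hnb : (#A : ℝ) * ∑ x ∈ A, F x * K x = ∑ x ∈ A, ∑ s ∈ A, HH A F (x * s) ^ 2 := by
    rw [← proj, mul_sum]
    refine sum_congr rfl fun x _ => ?_
    rw [← mul_sum, ← hKH]; ring
  have hKs : ∑ x ∈ A, K x = 0 := by
    rw [hK, sum_comm, ← hF]
    refine sum_congr rfl fun y hy => ?_
    rw [← sum_mul, wk_col hA hy, one_mul]
  have hc : (#A : ℝ) * ∑ x ∈ A, K x ^ 2 = ∑ x ∈ A, ∑ s ∈ A, K x * HH A F (x * s) := by
    rw [mul_sum]
    refine sum_congr rfl fun x _ => ?_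
    rw [← mul_sum, ← hKH]; ring
  have hc' : (#A : ℝ) * ∑ x ∈ A, K x ^ 2 = ∑ x ∈ A, ∑ s ∈ A, K s * HH A F (x * s) := by
    rw [hc, sum_comm]
    exact sum_congr rfl fun s _ => sum_congr rfl fun x _ => by rw [mul_comm x s]
  have hsq : ∑ x ∈ A, ∑ s ∈ A, (K x + K s) ^ 2 = 2 * ((#A : ℝ) * ∑ x ∈ A, K x ^ 2) := by
    have e : ∀ x ∈ A, ∑ s ∈ A, (K x + K s) ^ 2 =
        (#A : ℝ) * K x ^ 2 + 2 * K x * (∑ s ∈ A, K s) + ∑ s ∈ A, K s ^ 2 := by
      intro x _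
      rw [mul_sum, show (#A : ℝ) * K x ^ 2 = ∑ s ∈ A, K x ^ 2 by simp, ← sum_add_distrib,
        ← sum_add_distrib]
      exact sum_congr rfl fun s _ => by ring
    rw [sum_congr rfl e, hKs]
    simp only [mul_zero, add_zero, sum_add_distrib, sum_const, nsmul_eq_mul, ← mul_sum]
    ring
  have hpos : 0 ≤ ∑ x ∈ A, ∑ s ∈ A, (HH A F (x * s) - (K x + K s)) ^ 2 :=
    sum_nonneg fun x _ => sum_nonneg fun s _ => sq_nonneg _
  have hexp : ∑ x ∈ A, ∑ s ∈ A, (HH A F (x * s) - (K x + K s)) ^ 2 =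
      (∑ x ∈ A, ∑ s ∈ A, HH A F (x * s) ^ 2) - 2 * (∑ x ∈ A, ∑ s ∈ A, K x * HH A F (x * s)) -
        2 * (∑ x ∈ A, ∑ s ∈ A, K s * HH A F (x * s)) + ∑ x ∈ A, ∑ s ∈ A, (K x + K s) ^ 2 := by
    rw [mul_sum, mul_sum, ← sum_sub_distrib, ← sum_sub_distrib, ← sum_add_distrib]
    refine sum_congr rfl fun x _ => ?_
    rw [mul_sum, mul_sum, ← sum_sub_distrib, ← sum_sub_distrib, ← sum_add_distrib]
    exact sum_congr rfl fun s _ => by ring
  rw [hexp, ← hc, ← hc', hsq, ← hnb] at hpos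
  have hpos2 : 0 ≤ ∑ x ∈ A, ∑ s ∈ A, HH A F (x * s) ^ 2 :=
    sum_nonneg fun x _ => sum_nonneg fun s _ => sq_nonneg _
  rw [← hnb] at hpos2
  rw [hb]
  refine ⟨by nlinarith [hpos2], ?_⟩
  have : 0 ≤ (#A : ℝ) * ((∑ x ∈ A, F x * K x) - 2 * ∑ x ∈ A, K x ^ 2) := by nlinarith
  have := nonneg_of_mul_nonneg_right this hn
  linarith

end walk

section product

variable {A : Finset ℕ} {k : ℕ}

private lemma marg1 (v F : ℕ → ℝ) (hv : ∑ a ∈ A, v a = 1) (i : Fin k) :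
    ∑ y ∈ Ly A k, (∏ j, v (y j)) * F (y i) = ∑ a ∈ A, v a * F a := by
  have e : ∀ y : Fin k → ℕ, (∏ j, v (y j)) * F (y i) =
      ∏ j, (v (y j) * if j = i then F (y j) else 1) := by
    intro y
    rw [prod_mul_distrib]
    congr 1
    rw [prod_ite_eq']
    simp
  rw [sum_congr rfl fun y _ => e y]
  unfold Ly
  rw [← prod_univ_sum (fun _ => A) (fun j a => v a * if j = i then F a else 1)]
  rw [prod_eq_single i]
  · simp
  · intro j _ hj
    simp [hj, hv]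
  · simp

private lemma marg2 (v F : ℕ → ℝ) (hv : ∑ a ∈ A, v a = 1) (i j : Fin k) (hij : i ≠ j) :
    ∑ y ∈ Ly A k, (∏ j, v (y j)) * (F (y i) * F (y j)) = (∑ a ∈ A, v a * F a) ^ 2 := by
  have e : ∀ y : Fin k → ℕ, (∏ j, v (y j)) * (F (y i) * F (y j)) =
      ∏ l, (v (y l) * ((if l = i then F (y l) else 1) * (if l = j then F (y l) else 1))) := by
    intro y
    rw [prod_mul_distrib, prod_mul_distrib]
    congr 1
    rw [prod_ite_eq', prod_ite_eq']
    simp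
  rw [sum_congr rfl fun y _ => e y]
  unfold Ly
  rw [← prod_univ_sum (fun _ => A)
    (fun l a => v a * ((if l = i then F a else 1) * (if l = j then F a else 1)))]
  rw [← prod_subset (subset_univ {i, j}), prod_pair hij]
  · simp [hij, hij.symm, sq]
  · intro l _ hl
    simp only [mem_insert, mem_singleton, not_or] at hl
    simp [hl.1, hl.2, hv]

private lemma mom1 (v F : ℕ → ℝ) (hv : ∑ a ∈ A, v a = 1) :
    ∑ y ∈ Ly A k, (∏ j, v (y j)) * ∑ i, F (y i) = k * ∑ a ∈ A, v a * F a := by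
  simp only [mul_sum]
  rw [sum_comm, sum_congr rfl fun i _ => marg1 v F hv i]
  simp [mul_sum]

private lemma mom2 (v F : ℕ → ℝ) (hv : ∑ a ∈ A, v a = 1) :
    ∑ y ∈ Ly A k, (∏ j, v (y j)) * (∑ i, F (y i)) ^ 2 =
      k * ∑ a ∈ A, v a * F a ^ 2 + k * ((k : ℝ) - 1) * (∑ a ∈ A, v a * F a) ^ 2 := by
  have e : ∀ y : Fin k → ℕ, (∏ j, v (y j)) * (∑ i, F (y i)) ^ 2 =
      ∑ i, ∑ j, (∏ j, v (y j)) * (F (y i) * F (y j)) := by
    intro y
    rw [sq, sum_mul_sum, mul_sum]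
    exact sum_congr rfl fun i _ => by rw [mul_sum]
  rw [sum_congr rfl fun y _ => e y, sum_comm]
  have e2 : ∀ i : Fin k, ∑ y ∈ Ly A k, ∑ j, (∏ j, v (y j)) * (F (y i) * F (y j)) =
      (∑ a ∈ A, v a * F a ^ 2) + ((k : ℝ) - 1) * (∑ a ∈ A, v a * F a) ^ 2 := by
    intro i
    rw [sum_comm, ← sum_erase_add _ _ (mem_univ i)]
    have e3 : ∀ j ∈ univ.erase i, ∑ y ∈ Ly A k, (∏ j, v (y j)) * (F (y i) * F (y j)) =
        (∑ a ∈ A, v a * F a) ^ 2 := fun j hj => marg2 v F hv i j (ne_of_mem_erase hj).symm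
    rw [sum_congr rfl e3, sum_const, card_erase_of_mem (mem_univ i), card_univ, Fintype.card_fin,
      nsmul_eq_mul]
    have e4 := marg1 v (fun a => F a * F a) hv i
    rw [e4]
    have hk : 1 ≤ k := by have := i.2; omega
    push_cast [Nat.cast_sub hk]
    rw [add_comm]
    congr 1
    exact sum_congr rfl fun a _ => by ring
  rw [sum_congr rfl fun i _ => e2 i]
  simp
  ring

/-- Claim 2. -/
private lemma claim2 (hA : A.Nonempty) (F : ℕ → ℝ) (β : ℝ) :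
    2 * β * k * (∑ x ∈ A, ∑ y ∈ A, wk A x y * F x * F y) -
      β ^ 2 * (k * ∑ x ∈ A, F x ^ 2 + k * ((k : ℝ) - 1) * ∑ x ∈ A, (∑ y ∈ A, wk A x y * F y) ^ 2) ≤
      ∑ l ∈ Ly A k, (∑ x ∈ A, py (wk A) k x l * F x) ^ 2 / (∑ x ∈ A, py (wk A) k x l) := by
  have hp : ∀ x l, 0 ≤ py (wk A) k x l := fun x l => prod_nonneg fun i _ => wk_nonneg _ _
  have h1 : ∀ l ∈ Ly A k, 2 * (β * ∑ i, F (l i)) * (∑ x ∈ A, py (wk A) k x l * F x) -
      (β * ∑ i, F (l i)) ^ 2 * (∑ x ∈ A, py (wk A) k x l) ≤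
      (∑ x ∈ A, py (wk A) k x l * F x) ^ 2 / (∑ x ∈ A, py (wk A) k x l) := by
    intro l _
    set g := β * ∑ i, F (l i)
    have hv : 0 ≤ ∑ x ∈ A, py (wk A) k x l := sum_nonneg fun x _ => hp x l
    rcases hv.eq_or_lt with h0 | h0
    · have h2 := (sum_eq_zero_iff_of_nonneg fun x _ => hp x l).1 h0.symm
      have h3 : ∑ x ∈ A, py (wk A) k x l * F x = 0 :=
        sum_eq_zero fun x hx => by rw [h2 x hx, zero_mul]
      rw [h3, ← h0]
      simp
    · rw [le_div_iff₀ h0]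
      nlinarith [sq_nonneg ((∑ x ∈ A, py (wk A) k x l * F x) - g * ∑ x ∈ A, py (wk A) k x l)]
  refine le_trans (le_of_eq ?_) (sum_le_sum h1)
  rw [sum_sub_distrib]
  have e1 : ∑ l ∈ Ly A k, 2 * (β * ∑ i, F (l i)) * (∑ x ∈ A, py (wk A) k x l * F x) =
      2 * β * k * (∑ x ∈ A, ∑ y ∈ A, wk A x y * F x * F y) := by
    have : ∀ l ∈ Ly A k, 2 * (β * ∑ i, F (l i)) * (∑ x ∈ A, py (wk A) k x l * F x) =
        ∑ x ∈ A, 2 * β * F x * ((∏ j, wk A x (l j)) * ∑ i, F (l i)) := by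
      intro l _
      rw [mul_sum]
      exact sum_congr rfl fun x _ => by unfold py; ring
    rw [sum_congr rfl this, sum_comm, mul_sum]
    refine sum_congr rfl fun x hx => ?_
    rw [← mul_sum, mom1 (wk A x) F (wk_row hA hx), mul_sum, mul_sum, mul_sum]
    exact sum_congr rfl fun y _ => by ring
  have e2 : ∑ l ∈ Ly A k, (β * ∑ i, F (l i)) ^ 2 * (∑ x ∈ A, py (wk A) k x l) =
      β ^ 2 * (k * ∑ x ∈ A, F x ^ 2 + k * ((k : ℝ) - 1) * ∑ x ∈ A, (∑ y ∈ A, wk A x y * F y) ^ 2) := by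
    have : ∀ l ∈ Ly A k, (β * ∑ i, F (l i)) ^ 2 * (∑ x ∈ A, py (wk A) k x l) =
        ∑ x ∈ A, β ^ 2 * ((∏ j, wk A x (l j)) * (∑ i, F (l i)) ^ 2) := by
      intro l _
      rw [mul_sum]
      exact sum_congr rfl fun x _ => by unfold py; ring
    rw [sum_congr rfl this, sum_comm]
    have e3 : ∑ x ∈ A, F x ^ 2 = ∑ x ∈ A, ∑ y ∈ A, wk A x y * F y ^ 2 := by
      rw [sum_comm]
      refine sum_congr rfl fun y hy => ?_
      rw [← sum_mul, wk_col hA hy, one_mul]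
    rw [e3, mul_sum, mul_sum, ← sum_add_distrib, mul_sum]
    refine sum_congr rfl fun x hx => ?_
    rw [← mul_sum, mom2 (wk A x) F (wk_row hA hx)]
  rw [e1, e2]

end product

section centre

variable {A : Finset ℕ} (u : ℕ → ℝ)

private noncomputable def av (A : Finset ℕ) (u : ℕ → ℝ) : ℝ := (1 / (#A : ℝ)) * ∑ x ∈ A, u x

private lemma av_mul (hA : A.Nonempty) : (#A : ℝ) * av A u = ∑ x ∈ A, u x := by
  have hn : (#A : ℝ) ≠ 0 := by exact_mod_cast hA.card_pos.ne'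
  unfold av
  field_simp

private lemma cA (hA : A.Nonempty) : ∑ x ∈ A, (u x - av A u) = 0 := by
  rw [sum_sub_distrib, ← av_mul u hA]; simp

private lemma cB (hA : A.Nonempty) :
    ∑ x ∈ A, (u x - av A u) ^ 2 = ∑ x ∈ A, u x ^ 2 - (#A : ℝ) * av A u ^ 2 := by
  have e : ∀ x ∈ A, (u x - av A u) ^ 2 = u x ^ 2 - 2 * av A u * u x + av A u ^ 2 := fun x _ => by ring
  rw [sum_congr rfl e, sum_add_distrib, sum_sub_distrib, ← mul_sum, ← av_mul u hA]
  simp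
  ring

private lemma cC (hA : A.Nonempty) :
    ∑ x ∈ A, ∑ y ∈ A, wk A x y * (u x - av A u) * (u y - av A u) =
      ∑ x ∈ A, ∑ y ∈ A, wk A x y * (u x * u y) - (#A : ℝ) * av A u ^ 2 := by
  have e : ∀ x ∈ A, ∑ y ∈ A, wk A x y * (u x - av A u) * (u y - av A u) =
      ∑ y ∈ A, wk A x y * (u x * u y) - av A u * u x - av A u * ∑ y ∈ A, wk A x y * u y
        + av A u ^ 2 := by
    intro x hx
    have h1 := wk_row hA hx
    rw [show av A u * u x = ∑ y ∈ A, wk A x y * (av A u * u x) by rw [← sum_mul, h1, one_mul],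
      show av A u ^ 2 = ∑ y ∈ A, wk A x y * (av A u ^ 2) by rw [← sum_mul, h1, one_mul],
      mul_sum, ← sum_sub_distrib, ← sum_sub_distrib, ← sum_add_distrib]
    exact sum_congr rfl fun y _ => by ring
  rw [sum_congr rfl e, sum_add_distrib, sum_sub_distrib, sum_sub_distrib, ← mul_sum, ← mul_sum]
  have e2 : ∑ x ∈ A, ∑ y ∈ A, wk A x y * u y = ∑ y ∈ A, u y := by
    rw [sum_comm]
    refine sum_congr rfl fun y hy => ?_
    rw [← sum_mul, wk_col hA hy, one_mul]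
  rw [e2, ← av_mul u hA]
  simp
  ring

private lemma cD {L : Type} (hA : A.Nonempty) (S : Finset L) (p : ℕ → L → ℝ)
    (hp : ∀ x ∈ A, ∀ l ∈ S, 0 ≤ p x l) (hp1 : ∀ x ∈ A, ∑ l ∈ S, p x l = 1) :
    ∑ l ∈ S, (∑ x ∈ A, p x l * (u x - av A u)) ^ 2 / (∑ x ∈ A, p x l) =
      ∑ l ∈ S, (∑ x ∈ A, p x l * u x) ^ 2 / (∑ x ∈ A, p x l) - (#A : ℝ) * av A u ^ 2 := by
  have e : ∀ l ∈ S, (∑ x ∈ A, p x l * (u x - av A u)) ^ 2 / (∑ x ∈ A, p x l) =
      (∑ x ∈ A, p x l * u x) ^ 2 / (∑ x ∈ A, p x l) - 2 * av A u * (∑ x ∈ A, p x l * u x)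
        + av A u ^ 2 * ∑ x ∈ A, p x l := by
    intro l hl
    have e1 : ∑ x ∈ A, p x l * (u x - av A u) =
        ∑ x ∈ A, p x l * u x - av A u * ∑ x ∈ A, p x l := by
      rw [mul_sum, ← sum_sub_distrib]
      exact sum_congr rfl fun x _ => by ring
    rw [e1]
    by_cases h0 : ∑ x ∈ A, p x l = 0
    · have h2 := (sum_eq_zero_iff_of_nonneg fun x hx => hp x hx l hl).1 h0
      have h3 : ∑ x ∈ A, p x l * u x = 0 := sum_eq_zero fun x hx => by rw [h2 x hx, zero_mul]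
      rw [h3, h0]
      simp
    · field_simp
      ring
  rw [sum_congr rfl e, sum_add_distrib, sum_sub_distrib, ← mul_sum, ← mul_sum]
  have e2 : ∑ l ∈ S, ∑ x ∈ A, p x l * u x = ∑ x ∈ A, u x := by
    rw [sum_comm]
    refine sum_congr rfl fun x hx => ?_
    rw [← sum_mul, hp1 x hx, one_mul]
  have e3 : ∑ l ∈ S, ∑ x ∈ A, p x l = (#A : ℝ) := by
    rw [sum_comm, sum_congr rfl hp1]; simp
  rw [e2, e3, ← av_mul u hA]
  ring

end centre

private lemma cos_split (h : ℕ → ℝ) (w : ℝ) (x y : ℕ) : Real.cos (w * (h x - h y)) =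
    Real.cos (w * h x) * Real.cos (w * h y) + Real.sin (w * h x) * Real.sin (w * h y) := by
  rw [mul_sub, Real.cos_sub]

theorem hTT1 : StTT1 := by
  intro A h k w hpos hA hk
  have hn : 0 < (#A : ℝ) := by exact_mod_cast hA.card_pos
  set C : ℕ → ℝ := fun x => Real.cos (w * h x) with hC
  set Z : ℕ → ℝ := fun x => Real.sin (w * h x) with hZ
  -- P
  have hP : (#A : ℝ) * Pc A h w = (#A : ℝ) * av A C ^ 2 + (#A : ℝ) * av A Z ^ 2 := by
    have e : ∑ x ∈ A, ∑ y ∈ A, Real.cos (w * (h x - h y)) =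
        (∑ x ∈ A, C x) ^ 2 + (∑ x ∈ A, Z x) ^ 2 := by
      rw [sq, sq, sum_mul_sum, sum_mul_sum, ← sum_add_distrib]
      refine sum_congr rfl fun x _ => ?_
      rw [← sum_add_distrib]
      exact sum_congr rfl fun y _ => cos_split h w x y
    unfold Pc
    rw [e, ← av_mul C hA, ← av_mul Z hA]
    field_simp
  have hG : (#A : ℝ) * Gc A h w = ∑ x ∈ A, ∑ y ∈ A, wk A x y * (C x * C y) +
      ∑ x ∈ A, ∑ y ∈ A, wk A x y * (Z x * Z y) := by
    unfold Gc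
    rw [← mul_assoc, mul_one_div_cancel hn.ne', one_mul, ← sum_add_distrib]
    refine sum_congr rfl fun x _ => ?_
    rw [← sum_add_distrib]
    refine sum_congr rfl fun y _ => ?_
    rw [cos_split h w x y]
    ring
  have hone : ∑ x ∈ A, C x ^ 2 + ∑ x ∈ A, Z x ^ 2 = (#A : ℝ) := by
    rw [← sum_add_distrib, sum_congr rfl (g := fun _ => (1 : ℝ)) fun x _ => Real.cos_sq_add_sin_sq _]
    simp
  have hp0 : ∀ x ∈ A, ∀ l ∈ Ly A k, 0 ≤ py (wk A) k x l :=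
    fun x _ l _ => prod_nonneg fun i _ => wk_nonneg _ _
  have hp1 : ∀ x ∈ A, ∑ l ∈ Ly A k, py (wk A) k x l = 1 := by
    intro x hx
    unfold py Ly
    rw [← prod_univ_sum (fun _ => A) (fun _ a => wk A x a)]
    simp [wk_row hA hx]
  have hAc : (#A : ℝ) * Ac A (Ly A k) (py (wk A) k) h w =
      ∑ l ∈ Ly A k, (∑ x ∈ A, py (wk A) k x l * C x) ^ 2 / (∑ x ∈ A, py (wk A) k x l) +
      ∑ l ∈ Ly A k, (∑ x ∈ A, py (wk A) k x l * Z x) ^ 2 / (∑ x ∈ A, py (wk A) k x l) := by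
    unfold Ac
    rw [← mul_assoc, mul_one_div_cancel hn.ne', one_mul, ← sum_add_distrib]
    refine sum_congr rfl fun l _ => ?_
    rw [← add_div]
    congr 1
    rw [sq, sq, sum_mul_sum, sum_mul_sum, ← sum_add_distrib]
    refine sum_congr rfl fun x _ => ?_
    rw [← sum_add_distrib]
    refine sum_congr rfl fun y _ => ?_
    rw [cos_split h w x y]
    ring
  obtain ⟨hbC, hcC⟩ := claim1 hA (fun x => C x - av A C) (cA C hA)
  obtain ⟨hbZ, hcZ⟩ := claim1 hA (fun x => Z x - av A Z) (cA Z hA)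
  have hg : 0 ≤ (#A : ℝ) * (Gc A h w - Pc A h w) := by
    rw [mul_sub, hG, hP]
    have e1 := cC C hA
    have e2 := cC Z hA
    rw [e1] at hbC
    rw [e2] at hbZ
    linarith
  have hg' : 0 ≤ Gc A h w - Pc A h w := nonneg_of_mul_nonneg_right hg hn
  refine ⟨by linarith, ?_⟩
  set P := Pc A h w
  set g := Gc A h w - P with hgdef
  have hk1 : (1 : ℝ) ≤ k := by exact_mod_cast hk
  have main : ∀ β : ℝ, P + (2 * β * k * g - β ^ 2 * (k * ((1 - P) + ((k : ℝ) - 1) * g / 2))) ≤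
      Ac A (Ly A k) (py (wk A) k) h w := by
    intro β
    have c1 := claim2 (k := k) hA (fun x => C x - av A C) β
    have c2 := claim2 (k := k) hA (fun x => Z x - av A Z) β
    rw [cD C hA _ _ hp0 hp1] at c1
    rw [cD Z hA _ _ hp0 hp1] at c2
    have hb : (#A : ℝ) * g = ∑ x ∈ A, ∑ y ∈ A, wk A x y * (C x - av A C) * (C y - av A C) +
        ∑ x ∈ A, ∑ y ∈ A, wk A x y * (Z x - av A Z) * (Z y - av A Z) := by
      rw [cC C hA, cC Z hA, hgdef, mul_sub, hG, hP]; ring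
    have ha : (#A : ℝ) * (1 - P) = ∑ x ∈ A, (C x - av A C) ^ 2 + ∑ x ∈ A, (Z x - av A Z) ^ 2 := by
      rw [cB C hA, cB Z hA, mul_sub, hP, mul_one]; linarith
    set bC := ∑ x ∈ A, ∑ y ∈ A, wk A x y * (C x - av A C) * (C y - av A C)
    set bZ := ∑ x ∈ A, ∑ y ∈ A, wk A x y * (Z x - av A Z) * (Z y - av A Z)
    set aC := ∑ x ∈ A, (C x - av A C) ^ 2
    set aZ := ∑ x ∈ A, (Z x - av A Z) ^ 2
    set cC' := ∑ x ∈ A, (∑ y ∈ A, wk A x y * (C y - av A C)) ^ 2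
    set cZ' := ∑ x ∈ A, (∑ y ∈ A, wk A x y * (Z y - av A Z)) ^ 2
    have hcc : cC' + cZ' ≤ (#A : ℝ) * g / 2 := by rw [hb]; linarith
    have hkk : 0 ≤ β ^ 2 * (k * ((k : ℝ) - 1)) := by
      have : 0 ≤ (k : ℝ) - 1 := by linarith
      positivity
    have h3 := mul_le_mul_of_nonneg_left hcc hkk
    have h4 : (#A : ℝ) * (P + (2 * β * k * g - β ^ 2 * (k * ((1 - P) + ((k : ℝ) - 1) * g / 2)))) ≤
        (#A : ℝ) * Ac A (Ly A k) (py (wk A) k) h w := by
      rw [hAc]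
      have e1 : (#A : ℝ) * (P + (2 * β * k * g - β ^ 2 * (k * ((1 - P) + ((k : ℝ) - 1) * g / 2)))) =
        (#A : ℝ) * P + 2 * β * k * ((#A : ℝ) * g) - β ^ 2 * k * ((#A : ℝ) * (1 - P)) -
          β ^ 2 * (k * ((k : ℝ) - 1)) * ((#A : ℝ) * g / 2) := by ring
      rw [e1, hP]
      have e2 : 2 * β * k * ((#A : ℝ) * g) = 2 * β * k * (bC + bZ) := by rw [hb]
      have e3 : β ^ 2 * k * ((#A : ℝ) * (1 - P)) = β ^ 2 * k * (aC + aZ) := by rw [ha]
      rw [e2, e3]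
      nlinarith [c1, c2, h3]
    exact le_of_mul_le_mul_left h4 hn
  by_cases hD : (1 - P) + ((k : ℝ) - 1) * g / 2 = 0
  · rw [hD, div_zero, add_zero]
    have := main 0
    simpa using this
  · have := main (g / ((1 - P) + ((k : ℝ) - 1) * g / 2))
    refine le_trans (le_of_eq ?_) this
    congr 1
    field_simp
    ring

end Pool.Agent.Helper54.SR
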