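import Mathlib
import Pool.Agent.Helper21.SR.St

/-! Module JJ of project SR (helper21), by helper54. -/

namespace Pool.Agent.Helper54.SR

open MeasureTheory Set Pool.Agent.Helper21.SR

private lemma f_nonneg (w : ℝ) : 0 ≤ (1 - Real.cos w) / w ^ 2 :=
  div_nonneg (by linarith [Real.cos_le_one w]) (sq_nonneg w)

private lemma f_le (w : ℝ) : (1 - Real.cos w) / w ^ 2 ≤ 5 / 2 * (1 + w ^ 2)⁻¹ := by
  by_cases hw : w = 0
  · subst hw; norm_num
  have hw2 : 0 < w ^ 2 := by positivity
  rw [div_le_iff₀ hw2, ← div_eq_mul_inv, div_mul_eq_mul_div, le_div_iff₀ (by positivity)]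
  have h1 := Real.one_sub_sq_div_two_le_cos (x := w)
  have h2 := Real.neg_one_le_cos w
  nlinarith

private lemma f_int : IntegrableOn (fun w : ℝ => (1 - Real.cos w) / w ^ 2) (Ioi 0) := by
  refine Integrable.mono' (g := fun w => 5 / 2 * (1 + w ^ 2)⁻¹)
    ((integrable_inv_one_add_sq.const_mul (5 / 2)).integrableOn) ?_ ?_
  · apply Measurable.aestronglyMeasurable
    fun_prop
  · refine ae_of_all _ fun w => ?_
    rw [Real.norm_eq_abs, abs_of_nonneg (f_nonneg w)]
    exact f_le w

private lemma f_pos : 0 < ∫ w in Ioi (0 : ℝ), (1 - Real.cos w) / w ^ 2 := by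
  rw [setIntegral_pos_iff_support_of_nonneg_ae (ae_of_all _ f_nonneg) f_int]
  refine lt_of_lt_of_le ?_ (measure_mono (s := Ioo (0 : ℝ) 1) ?_)
  · simp
  · intro w hw
    refine ⟨?_, hw.1⟩
    rw [Function.mem_support]
    have h1 : Real.cos w < 1 := by
      rw [← Real.cos_zero]
      apply Real.cos_lt_cos_of_nonneg_of_le_pi le_rfl _ hw.1
      linarith [Real.pi_gt_three, hw.2]
    have h2 : 0 < w ^ 2 := by have := hw.1; positivity
    have : 0 < (1 - Real.cos w) / w ^ 2 := div_pos (by linarith) h2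
    exact this.ne'

theorem hJJ : StJJ := by
  refine ⟨_, f_pos, ?_⟩
  intro u
  by_cases hu : u = 0
  · subst hu
    simp
  have hu' : 0 < |u| := abs_pos.mpr hu
  have key : (fun w : ℝ => (1 - Real.cos (w * u)) / w ^ 2) =
      fun w => |u| ^ 2 * ((1 - Real.cos (|u| * w)) / (|u| * w) ^ 2) := by
    funext w
    have h1 : Real.cos (w * u) = Real.cos (|u| * w) := by
      rcases abs_choice u with h | h
      · rw [h, mul_comm]
      · rw [h, ← Real.cos_neg]; congr 1; ring
    rw [h1, mul_pow]
    by_cases hw : w = 0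
    · subst hw; simp
    · field_simp
  have hi := (integrableOn_Ioi_comp_mul_left_iff (fun w : ℝ => (1 - Real.cos w) / w ^ 2) 0 hu').2
    (by simpa using f_int)
  constructor
  · rw [key]
    exact Integrable.const_mul hi _
  · rw [key, integral_const_mul, integral_comp_mul_left_Ioi (fun w : ℝ => (1 - Real.cos w) / w ^ 2) 0 hu']
    simp only [mul_zero, smul_eq_mul]
    field_simp

end Pool.Agent.Helper54.SR
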